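import Pool.Agent.R908.MainK
import Pool.Agent.W534.Uni
import Pool.Agent.X310.Mom5
import Pool.Agent.TH125.Gal.Fp
import Pool.Agent.Y121.AHS.Defs
import Pool.Agent.P8H28.DL.Fin

/-!
# The conjecture D for the square and for all powers in characteristic zero
-/

set_option linter.unusedSectionVars false

open CategoryTheory AlgebraicGeometry

universe u

namespace Pool.Agent.P8H28.OV

open Module
open Pool.Agent.H914 Pool.Agent.H914.VarClass Pool.Agent.H914.VarClass.Obj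
  Pool.Agent.H914.WeilCohomology
open Pool.Agent.Y121.AHS (HodgeTheory IsHodge)
open Pool.Agent.H447 (tr_mul_cl)

variable {k : Type u} [Field k] {𝒱 : VarClass k} {ops : CycleOps 𝒱}

/-- Every variety has a polarization for which the standard conjecture of Hodge type is true. -/
lemma exists_pol (T : HodgeTheory ops) (Y : 𝒱.Obj) : ∃ D : Y.Cycles, Y.IsCyc 1 D ∧
    HardLefschetz T.W Y D ∧ HodgeType T.W Y D := by
  obtain ⟨D, hD, hHL, hR⟩ := T.polar Y
  refine ⟨D, hD, hHL, fun j hj z hz h0 hne => ?_⟩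
  rw [cl_divPow, LinearMap.pow_mulLeft, LinearMap.mulLeft_apply] at h0
  obtain ⟨r, hr, h⟩ := hR j (T.W.cl Y z) hj (T.cyc Y j z hz) h0 hne
  have h1 : T.W.tr Y (T.W.cl Y z * T.W.cl Y (divPow ops D (Y.dim - 2 * j) z)) =
      (Y.V.degCycle (ops.mul z (divPow ops D (Y.dim - 2 * j) z)) : T.W.K) :=
    tr_mul_cl hz (divPow_mem hD _ hz) (by omega)
  rw [cl_divPow, LinearMap.pow_mulLeft, LinearMap.mulLeft_apply,
    T.W.even_comm (T.W.cl_mem hz)] at h1
  rw [h1] at h
  have h2 : (-1 : ℚ) ^ j * Y.V.degCycle (ops.mul z (divPow ops D (Y.dim - 2 * j) z)) = r := by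
    have h3 : (((-1 : ℚ) ^ j * Y.V.degCycle (ops.mul z (divPow ops D (Y.dim - 2 * j) z)) : ℚ) :
      T.W.K) = (r : T.W.K) := by
      push_cast
      exact h
    exact_mod_cast h3
  rw [h2]
  exact hr

/-- The conjecture B for all products. -/
lemma lefschetzB_products (T : HodgeTheory ops) {X : 𝒱.Obj}
    (h : ∀ D, X.IsCyc 1 D → HardLefschetz T.W X D → LefschetzB T.W X D) {Z : 𝒱.Obj}
    (hZ : IsProductOf {X} Z) : ∀ D, Z.IsCyc 1 D → HardLefschetz T.W Z D → LefschetzB T.W Z D := by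
  induction hZ with
  | base hX =>
    rw [Set.mem_singleton_iff] at hX
    rw [hX]
    exact h
  | @prod Y Z _ _ h1 h2 =>
    intro E hE hHL
    obtain ⟨D₁, hD₁, hL₁, _⟩ := exists_pol T Y
    obtain ⟨D₂, hD₂, hL₂, _⟩ := exists_pol T Z
    have h3 := Pool.Agent.X310.Mom.lefschetzB_prod hD₁ hD₂ hL₁ hL₂ (h1 D₁ hD₁ hL₁) (h2 D₂ hD₂ hL₂)
    exact Pool.Agent.W534.lefschetzB_indep (Pool.Agent.TH720.LB.isCyc_sumDiv hD₁ hD₂)
      (TH125.Gal.hardLefschetz_prod hD₁ hD₂ hL₁ hL₂) hE hHL h3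

/-- **The conjecture D for the square implies the conjectures D and B for all varieties dominated by
products**, in characteristic zero. -/
theorem all_of_square (T : HodgeTheory ops) {X : 𝒱.Obj} (h : HomEqNum T.W (X.prod X)) {Z : 𝒱.Obj}
    (hZ : IsProductOf {X} Z) {V : 𝒱.Obj} (hV : Dominates T.W Z V) :
    HomEqNum T.W V ∧ ∀ D, V.IsCyc 1 D → HardLefschetz T.W V D → LefschetzB T.W V D := by
  have hB : ∀ D, X.IsCyc 1 D → HardLefschetz T.W X D → LefschetzB T.W X D :=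
    fun D hD hHL =>
      (((Pool.Agent.H447.d_tfae hD hHL).out 0 2 : HomEqNum T.W (X.prod X) ↔
        Pool.Agent.H447.HomEqNumIn T.W (X.prod X) X.dim ∧ LefschetzB T.W X D).1 h).2
  refine Pool.Agent.R908.dominated_of_products (R := {X}) (fun Z hZ => ?_) Z hZ V hV
  obtain ⟨D, hD, hL, hH⟩ := exists_pol T Z
  obtain ⟨f, F, _⟩ := TH125.Gal.exists_Fp hD hL (lefschetzB_products T hB hZ D hD hL) hH
  exact F.hodge.2

end Pool.Agent.P8H28.OV
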