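import Pool.Agent.Y133.Half.DDefs
import Pool.Agent.Y133.Half.HalfDefs
import Pool.Agent.Y133.Half.PwDefs

/-!
# Few numerically effective cycles on all powers: the definition
-/

universe u v

namespace Pool.Agent.P8H28.OV

open Pool.Agent.H914 Pool.Agent.Y133.Half

variable {k : Type u} [Field k] {𝒱 : VarClass k} {ops : CycleOps 𝒱}

/-- The numbers `num n` of the numerically independent cycles on `X ^ (n + 1)` are small in comparison
with the numbers `alg n` of the homologically independent cycles, for all `n`: for all `L ≥ 1` and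
`n ≥ 1` we have `(L - C log (n + 2) / n) num n ≤ alg n`, where
`C = 3 L (L + 1) (2 L + 3) b ^ (2 L + 5)` and `b` is the dimension of `H(X)`, and for all `n` we have
`log (n + 1) num n ≤ 112 log (2 b) alg n`. -/
def FewEffective (W : WeilCohomology.{u, v} ops) (X : 𝒱.Obj) : Prop :=
  (∀ L n : ℕ, 0 < L → 0 < n →
    ((L : ℝ) - (3 * L * (L + 1) * (2 * L + 3) * Module.finrank W.K (W.H X) ^ (2 * L + 5) : ℕ) *
      Real.log (n + 2) / n) * cycRank ops (pw X n) ≤ algDim W (pw X n)) ∧
  ∀ n : ℕ, Real.log (n + 1) * cycRank ops (pw X n) ≤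
    112 * Real.log (2 * Module.finrank W.K (W.H X)) * algDim W (pw X n)

end Pool.Agent.P8H28.OV
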