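import Pool.Agent.P8H28.OV.Char0
import Pool.Agent.P8H28.OV.Defs
import Pool.Agent.H447R3.NcB

/-!
# One explicit power and the standard conjectures
-/

set_option linter.unusedSectionVars false

open CategoryTheory AlgebraicGeometry

universe u v

namespace Pool.Agent.P8H28.OV

open Module
open Pool.Agent.H914 Pool.Agent.H914.VarClass Pool.Agent.H914.VarClass.Obj
  Pool.Agent.H914.WeilCohomology
open Pool.Agent.Y133.Half (pw cycRank algDim)
open Pool.Agent.P8H28.DL (d_eff d_rate)

variable {k : Type u} [Field k] {𝒱 : VarClass k} {ops : CycleOps 𝒱}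

/-- D for the square, or few numerically effective cycles. -/
theorem square_or (W : WeilCohomology.{u, v} ops) (X : 𝒱.Obj) :
    HomEqNum W (X.prod X) ∨ FewEffective W X := by
  by_cases h : HomEqNum W (X.prod X)
  · exact Or.inl h
  right
  have h' : ¬ HomEqNum W (pw X 1) := h
  constructor
  · intro L n hL hn
    refine (d_eff W X 1 L _ hL ?_).resolve_left h' n hn
    rw [show L * (1 + 1) = 2 * L by ring]
  · intro n
    have h1 := (d_rate W X 1 _ rfl).resolve_left h' n
    refine h1.trans (le_of_eq ?_)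
    push_cast
    ring

/-- The conjecture C from the conjecture B. -/
theorem kunneth_of_B {W : WeilCohomology.{u, v} ops} {X : 𝒱.Obj} {D : X.Cycles}
    (hD : X.IsCyc 1 D) (hHL : HardLefschetz W X D) (hB : LefschetzB W X D) : KunnethStd W X :=
  (((Pool.Agent.H447.central_tfae hD hHL).out 0 1 : LefschetzB W X D ↔
    KunnethStd W X ∧ Pool.Agent.H447.CentralCommute W X D).1 hB).1

/-- B for products, with some divisor. -/
theorem B_products {W : WeilCohomology.{u, v} ops} {X : 𝒱.Obj} {D : X.Cycles}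
    (hD : X.IsCyc 1 D) (hHL : HardLefschetz W X D) (hB : LefschetzB W X D) {Z : 𝒱.Obj}
    (hZ : IsProductOf {X} Z) : ∃ E : Z.Cycles, Z.IsCyc 1 E ∧ HardLefschetz W Z E ∧
      LefschetzB W Z E := by
  induction hZ with
  | base hX =>
    rw [Set.mem_singleton_iff] at hX
    subst hX
    exact ⟨D, hD, hHL, hB⟩
  | prod _ _ h1 h2 =>
    obtain ⟨D₁, hD₁, hL₁, hB₁⟩ := h1
    obtain ⟨D₂, hD₂, hL₂, hB₂⟩ := h2
    exact ⟨_, Pool.Agent.TH720.LB.isCyc_sumDiv hD₁ hD₂,
      TH125.Gal.hardLefschetz_prod hD₁ hD₂ hL₁ hL₂,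
      Pool.Agent.X310.Mom.lefschetzB_prod hD₁ hD₂ hL₁ hL₂ hB₁ hB₂⟩

/-- The law for the conjecture C. -/
theorem c_law (W : WeilCohomology.{u, v} ops) (X : 𝒱.Obj) {D : X.Cycles} (hD : X.IsCyc 1 D)
    (hHL : HardLefschetz W X D) :
    (∀ Z, IsProductOf {X} Z → KunnethStd W Z) ∨ FewEffective W X := by
  rcases square_or W X with h | h
  · left
    intro Z hZ
    have hB : LefschetzB W X D :=
      (((Pool.Agent.H447.d_tfae hD hHL).out 0 2 : HomEqNum W (X.prod X) ↔
        Pool.Agent.H447.HomEqNumIn W (X.prod X) X.dim ∧ LefschetzB W X D).1 h).2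
    obtain ⟨E, hE, hL, hB'⟩ := B_products hD hHL hB hZ
    exact kunneth_of_B hE hL hB'
  · exact Or.inr h

end Pool.Agent.P8H28.OV
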